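import Pool.Agent.H22.SatFit

namespace Pool.Agent.Results.MP_035081_al.SatLocal

/-- A class of groups, given as a predicate. -/
abbrev Cls := (G : Type) → [Group G] → Prop

/-- A Fitting class of finite groups (possibly empty). -/
def Fitting (C : Cls) : Prop :=
  (∀ (G : Type) [Group G], C G → Finite G) ∧
  (∀ (G K : Type) [Group G] [Group K], Nonempty (G ≃* K) → C G → C K) ∧
  (∀ (G : Type) [Group G] [Finite G] (N : Subgroup G), N.Normal → C G → C ↥N) ∧
  (∀ (G : Type) [Group G] [Finite G] (N K : Subgroup G),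
    N.Normal → K.Normal → C ↥N → C ↥K → C ↥(N ⊔ K))

/-- The class is non-empty. -/
def NonEmpty (C : Cls) : Prop := ∃ (K : Type) (_ : Group K) (_ : Finite K), C K

/-- The product `X Y`: `G` has a largest normal `X`-subgroup `N`, and `G / N` lies in `Y`. -/
def Prod (X Y : Cls) : Cls := fun G _ => ∃ (N : Subgroup G) (_ : N.Normal), X N ∧
  (∀ K : Subgroup G, K.Normal → X K → K ≤ N) ∧ Y (G ⧸ N)

/-- The class of `p`-groups. -/
def Np (p : ℕ) : Cls := fun G _ => IsPGroup p G

/-- The class of `p'`-groups. -/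
def Ep' (p : ℕ) : Cls := fun G _ => ¬ p ∣ Nat.card G

/-- Local in the sense of Hartley. -/
def Local (F : Cls) : Prop :=
  ∃ h : ℕ → Cls, (∀ p, Fitting (h p)) ∧ ∀ (G : Type) [Group G] [Finite G], F G ↔
    ((∀ p : ℕ, p.Prime → p ∣ Nat.card G → NonEmpty (h p)) ∧
      ∀ p : ℕ, p.Prime → NonEmpty (h p) → Prod (h p) (Prod (Np p) (Ep' p)) G)

/-- The intersection of all local Fitting classes containing `M`. -/
def lFit (M : Type) [Group M] : Cls := fun G _ => ∀ L : Cls, Fitting L → Local L → L M → L G

/-- `N` is normal and `lFit (N ∩ M) = lFit M` for every subnormal subgroup `M`. -/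
def Good {G : Type} [Group G] (N : Subgroup G) : Prop :=
  N.Normal ∧ ∀ M : Subgroup G, M.IsSubnormal → lFit ↥(N ⊓ M) = lFit M

/-- The subgroup `Ψ(G)`; the theorem shows it is the smallest `Good` subgroup. -/
def Psi (G : Type) [Group G] : Subgroup G := sInf {N | Good N}

/-- Saturated Fitting class. -/
def Saturated (F : Cls) : Prop := ∀ (G : Type) [Group G] [Finite G], F (Psi G) → F G

theorem result :
    (∀ (G : Type) [Group G] [Finite G], IsLeast {N : Subgroup G | Good N} (Psi G)) ∧
    ∀ F : Cls, Fitting F → NonEmpty F → (∀ (G : Type) [Group G], F G → Group.IsSolvable G) →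
      Saturated F → Local F :=
  ⟨fun G _ _ => Pool.Agent.H22.Fit.psi_least G,
    fun _ a b c d => Pool.Agent.H22.Fit.sat_loc a b c d⟩

end Pool.Agent.Results.MP_035081_al.SatLocal
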